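import Pool.Agent.Helper16.DIL.Spec

set_option autoImplicit false

namespace Pool.Agent.Helper40.DIL.C2

open Finset Pool.Agent.Helper16.DIL

/-- the dot product as a map to the dual space -/
noncomputable def dot (K : ℕ) : (Fin K → ℚ) →ₗ[ℚ] Module.Dual ℚ (Fin K → ℚ) :=
  LinearMap.mk₂ ℚ (fun y v => ∑ i, y i * v i)
    (by intro a b c; simp [add_mul, Finset.sum_add_distrib])
    (by intro c a b; simp [Finset.mul_sum, mul_assoc])
    (by intro a b c; simp [mul_add, Finset.sum_add_distrib])
    (by intro c a b; simp only [Pi.smul_apply, smul_eq_mul, Finset.mul_sum]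
        exact Finset.sum_congr rfl (fun i _ => by ring))

theorem dot_apply (K : ℕ) (y v : Fin K → ℚ) : dot K y v = ∑ i, y i * v i := rfl

theorem dot_inj (K : ℕ) : Function.Injective (dot K) := by
  rw [injective_iff_map_eq_zero]
  intro y hy
  funext i
  have h : dot K y (Pi.single i 1) = 0 := by rw [hy]; rfl
  rw [dot_apply] at h
  simpa [Pi.single_apply] using h

/-- cyclic differences -/
def dif (k : ℕ) : (Fin (k + 1) → ℚ) →ₗ[ℚ] (Fin (k + 1) → ℚ) where
  toFun X := fun i => X i - X (i + 1)
  map_add' a b := by funext i; simp only [Pi.add_apply]; ring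
  map_smul' c a := by funext i; simp only [Pi.smul_apply, smul_eq_mul, RingHom.id_apply]; ring

theorem ker_dif (k : ℕ) (X : Fin (k + 1) → ℚ) (h : dif k X = 0) : ∀ i, X i = X 0 := by
  have h1 : ∀ i : Fin (k + 1), X i = X (i + 1) := by
    intro i
    have := congrFun h i
    have h2 : X i - X (i + 1) = 0 := this
    linarith
  intro i
  induction i using Fin.induction with
  | zero => rfl
  | succ j ih =>
    rw [← ih, h1 j.castSucc]
    congr 1
    exact (Fin.coeSucc_eq_succ (a := j)).symm

theorem finrank_U (k : ℕ) (W : Submodule ℚ (Fin (k + 1) → ℚ)) :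
    Module.finrank ℚ (((W.dualAnnihilator).comap (dot (k + 1))).comap (dif k)) ≤
      k + 2 - Module.finrank ℚ W := by
  set P := (W.dualAnnihilator).comap (dot (k + 1)) with hP
  set U := P.comap (dif k) with hU
  have h1 : Module.finrank ℚ W + Module.finrank ℚ W.dualAnnihilator = k + 1 := by
    rw [Subspace.finrank_add_finrank_dualAnnihilator_eq W, Module.finrank_fin_fun]
  have h2 : Module.finrank ℚ P ≤ Module.finrank ℚ W.dualAnnihilator := by
    let g : P →ₗ[ℚ] W.dualAnnihilator := (dot (k + 1)).restrict (fun x hx => hx)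
    apply LinearMap.finrank_le_finrank_of_injective (f := g)
    intro a b hab
    apply Subtype.ext
    apply dot_inj
    exact congrArg Subtype.val hab
  let f : U →ₗ[ℚ] P := (dif k).restrict (fun x hx => hx)
  have h3 := LinearMap.finrank_range_add_finrank_ker f
  have h4 : Module.finrank ℚ (LinearMap.range f) ≤ Module.finrank ℚ P := Submodule.finrank_le _
  have h5 : Module.finrank ℚ (LinearMap.ker f) ≤ 1 := by
    let e : LinearMap.ker f →ₗ[ℚ] ℚ :=
      (LinearMap.proj (0 : Fin (k + 1))).comp (U.subtype.comp (LinearMap.ker f).subtype)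
    have he : Function.Injective e := by
      rw [injective_iff_map_eq_zero]
      intro y hy
      have hy1 : dif k (y.1.1) = 0 := congrArg Subtype.val (LinearMap.mem_ker.mp y.2)
      have hy2 := ker_dif k _ hy1
      have hy3 : y.1.1 0 = 0 := hy
      apply Subtype.ext
      apply Subtype.ext
      funext i
      rw [hy2 i, hy3]
      rfl
    have := LinearMap.finrank_le_finrank_of_injective he
    simpa using this
  omega

theorem main (hC0 : S_C0) : S_C2 := by
  intro J _ _ x k n hx
  set W := Wn n with hW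
  set U := ((W.dualAnnihilator).comap (dot (k + 1))).comap (dif k) with hU
  have hfin := finrank_U k W
  obtain ⟨I, hI, hIU⟩ := hC0 (k + 1) U
  have hmem : ∀ w : Fin (k + 1) → J,
      (∀ p : ℕ, ∑ i, ((x (w i) - x (w (i + 1)) : ℤ) : ℚ) * vp n p i = 0) →
      (fun i => (x (w i) : ℚ)) ∈ U := by
    intro w hw
    rw [hU, Submodule.mem_comap, Submodule.mem_comap, Submodule.mem_dualAnnihilator]
    have hker : W ≤ LinearMap.ker (dot (k + 1) (dif k (fun i => (x (w i) : ℚ)))) := by
      rw [hW, Wn, Submodule.span_le]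
      intro v hv
      rcases hv with rfl | ⟨p, rfl⟩
      · change dot (k + 1) (dif k (fun i => (x (w i) : ℚ))) (fun _ => 1) = 0
        rw [dot_apply]
        have h1 : ∀ i : Fin (k + 1), dif k (fun i => (x (w i) : ℚ)) i * 1 =
            (x (w i) : ℚ) - (x (w (i + 1)) : ℚ) := by
          intro i
          rw [mul_one]
          rfl
        rw [Finset.sum_congr rfl (fun i _ => h1 i), Finset.sum_sub_distrib]
        have h2 : ∑ i : Fin (k + 1), (x (w (i + 1)) : ℚ) = ∑ i : Fin (k + 1), (x (w i) : ℚ) :=
          Equiv.sum_comp (Equiv.addRight (1 : Fin (k + 1))) (fun i => (x (w i) : ℚ))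
        rw [h2, sub_self]
      · change dot (k + 1) (dif k (fun i => (x (w i) : ℚ))) (vp n p) = 0
        rw [dot_apply, ← hw p]
        apply Finset.sum_congr rfl
        intro i _
        change ((x (w i) : ℚ) - (x (w (i + 1)) : ℚ)) * vp n p i = _
        push_cast
        rfl
    intro v hv
    exact hker hv
  by_cases hJ : IsEmpty J
  · have : {w : Fin (k + 1) → J |
      ∀ p : ℕ, ∑ i, ((x (w i) - x (w (i + 1)) : ℤ) : ℚ) * vp n p i = 0} = ∅ := by
      ext w
      exact (hJ.false (w 0)).elim
    rw [this]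
    simp
  rw [not_isEmpty_iff] at hJ
  have hcard : 1 ≤ Fintype.card J := Fintype.card_pos
  rw [← Nat.card_coe_set_eq]
  let F : {w : Fin (k + 1) → J |
      ∀ p : ℕ, ∑ i, ((x (w i) - x (w (i + 1)) : ℤ) : ℚ) * vp n p i = 0} → (I → J) :=
    fun w i => w.1 i.1
  have hF : Function.Injective F := by
    intro a b hab
    have h1 := hIU _ (U.sub_mem (hmem a.1 a.2) (hmem b.1 b.2)) (by
      intro i hi
      have h2 : a.1 i = b.1 i := congrFun hab ⟨i, hi⟩
      simp [h2])
    apply Subtype.ext
    funext i
    have h3 := congrFun h1 i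
    have h4 : (x (a.1 i) : ℚ) - (x (b.1 i) : ℚ) = 0 := h3
    apply hx
    have h5 : (x (a.1 i) : ℚ) = (x (b.1 i) : ℚ) := by linarith
    exact_mod_cast h5
  calc _ ≤ Nat.card (I → J) := Nat.card_le_card_of_injective F hF
    _ = Fintype.card J ^ I.card := by
        rw [Nat.card_eq_fintype_card, Fintype.card_fun, Fintype.card_coe]
    _ ≤ Fintype.card J ^ (k + 2 - Module.finrank ℚ W) := by
        apply Nat.pow_le_pow_right hcard
        rw [hI]
        exact hfin

end Pool.Agent.Helper40.DIL.C2
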